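import Pool.Agent.R221.PQ.Final

set_option autoImplicit false

open Pool.Agent.R221.PQ

namespace Pool.Agent.Results.MP_83d7ff_an.TwiceSemidiffIsPLQ

/-- Every piecewise quadratic function on `ℝⁿ` that is twice semidifferentiable at every point is
piecewise linear-quadratic. -/
theorem result (n : ℕ) (f : EuclideanSpace ℝ (Fin n) → ℝ) (hf : IsPQ f)
    (h2 : ∀ x, TwiceSemidiffAt f x) : IsPLQ f :=
  main f hf h2

end Pool.Agent.Results.MP_83d7ff_an.TwiceSemidiffIsPLQ
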